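import Mathlib

/-!
The Campana-Peternell conjecture is equivalent to a very weak special case of itself: if
`K_X - cF` is pseudo-effective, where `F` is the pull-back of `O(1,...,1)` under a surjective
morphism `X → (P¹)^k`, then `κ(X) ≥ 1` (only in a sparse set of dimensions, and only for large `k`).
-/

namespace Pool.Agent.Results.MP_370cf3_ag.FibrationReduction

/-- Smooth projective complex varieties, `ℚ`-divisors modulo `ℚ`-linear equivalence, Iitaka
dimension, products, birational morphisms, morphisms to `(P¹)^k` and Iitaka fibrations.  All the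
fields are known facts.  The model: `Div X` is the `ℚ`-vector space of `ℚ`-divisors on `X` modulo
`~_ℚ`, `K X` the canonical class, `eff X` the classes of effective `ℚ`-divisors, `psef X` the
pseudo-effective classes, `kod D` the Iitaka dimension (`⊥` stands for `-∞`), `box D D'` the class
`p^*D + q^*D'` on the product. -/
structure Theory where
  /-- The smooth projective varieties. -/
  Var : Type
  /-- The dimension. -/
  dim : Var → ℕ
  /-- The `ℚ`-divisors modulo `ℚ`-linear equivalence. -/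
  Div : Var → Type
  [grp : ∀ X, AddCommGroup (Div X)]
  [mod : ∀ X, Module ℚ (Div X)]
  /-- The canonical class. -/
  K : ∀ X, Div X
  /-- The classes of effective divisors. -/
  eff : ∀ X, Set (Div X)
  /-- The pseudo-effective classes. -/
  psef : ∀ X, Set (Div X)
  zero_eff : ∀ X, 0 ∈ eff X
  eff_psef : ∀ X, eff X ⊆ psef X
  psef_add : ∀ X, ∀ D ∈ psef X, ∀ D' ∈ psef X, D + D' ∈ psef X
  /-- The Iitaka dimension. -/
  kod : ∀ X, Div X → WithBot ℕ
  kod_le : ∀ X D, kod X D ≤ (dim X : WithBot ℕ)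
  kod_eff : ∀ X, ∀ D ∈ eff X, 0 ≤ kod X D
  /-- The product of two varieties. -/
  prod : Var → Var → Var
  dim_prod : ∀ X Y, dim (prod X Y) = dim X + dim Y
  /-- The class `p^*D + q^*D'`. -/
  box : ∀ {X Y}, Div X → Div Y → Div (prod X Y)
  box_add : ∀ {X Y} (A B : Div X) (A' B' : Div Y), box (A + B) (A' + B') = box A A' + box B B'
  box_smul : ∀ {X Y} (c : ℚ) (A : Div X) (A' : Div Y), box (c • A) (c • A') = c • box A A'
  K_prod : ∀ X Y, K (prod X Y) = box (K X) (K Y)
  eff_box : ∀ {X Y} (A : Div X) (A' : Div Y), A ∈ eff X → A' ∈ eff Y → box A A' ∈ eff (prod X Y)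
  psef_box : ∀ {X Y} (A : Div X) (A' : Div Y), A ∈ psef X → A' ∈ psef Y →
    box A A' ∈ psef (prod X Y)
  kod_box : ∀ {X Y} (A : Div X) (A' : Div Y), kod (prod X Y) (box A A') = kod X A + kod Y A'
  /-- A curve of genus `2`. -/
  C : Var
  dim_C : dim C = 1
  K_C_eff : K C ∈ eff C
  kod_C : kod C (K C) = 1
  /-- An elliptic curve. -/
  E : Var
  dim_E : dim E = 1
  K_E : K E = 0
  kod_E : kod E 0 = 0
  /-- Birational morphisms `X' → X`. -/
  Bir : Var → Var → Type
  /-- The pull-back of divisors under a birational morphism. -/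
  pull : ∀ {X' X}, Bir X' X → Div X →+ Div X'
  pull_eff : ∀ {X' X} (μ : Bir X' X), ∀ D ∈ eff X, pull μ D ∈ eff X'
  pull_psef : ∀ {X' X} (μ : Bir X' X), ∀ D ∈ psef X, pull μ D ∈ psef X'
  kod_pull : ∀ {X' X} (μ : Bir X' X) (D : Div X), kod X' (pull μ D) = kod X D
  /-- The canonical class upstairs is the pull-back plus an effective (exceptional) divisor. -/
  K_pull : ∀ {X' X} (μ : Bir X' X), ∃ R ∈ eff X', K X' = pull μ (K X) + R
  /-- The Kodaira dimension is a birational invariant. -/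
  kod_bir : ∀ {X' X}, Bir X' X → kod X' (K X') = kod X (K X)
  /-- The classes `f^*O(1,...,1)` for the surjective morphisms `f : X → (P¹)^k`. -/
  lines : ∀ X, ℕ → Set (Div X)
  lines_eff : ∀ X k, ∀ F ∈ lines X k, ∀ c : ℚ, 0 < c → c • F ∈ eff X
  kod_lines : ∀ X k, ∀ F ∈ lines X k, ∀ c : ℚ, 0 < c → kod X (c • F) = k
  /-- The constant morphism to `(P¹)^0`. -/
  zero_lines : ∀ X, 0 ∈ lines X 0
  /-- The product morphism `X × Y → (P¹)^k × (P¹)^l`. -/
  lines_box : ∀ {X Y} (k l : ℕ), ∀ F ∈ lines X k, ∀ F' ∈ lines Y l,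
    box F F' ∈ lines (prod X Y) (k + l)
  /-- If `κ(A) ≥ 1`, some multiple of `A` moves in a pencil, which becomes base point free on a
  birational model. -/
  pencil : ∀ X, ∀ A ∈ eff X, 1 ≤ kod X A → ∃ (X' : Var) (μ : Bir X' X), ∃ F ∈ lines X' 1,
    ∃ c : ℚ, 0 < c ∧ ∃ R ∈ eff X', pull μ A = c • F + R
  /-- The Iitaka fibration of `X` with `κ(X) = k ≥ 1`: on a birational model `X'` it is a morphism
  whose very general fibre `G` has dimension `dim X - k` and Kodaira dimension `0`; `res` is the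
  restriction to `G` (adjunction: `K_{X'}` restricts to `K_G`), effective and pseudo-effective
  classes restrict to such classes, and easy addition `κ(A) ≤ κ(A|_G) + k` holds. -/
  iitaka : ∀ (X : Var) (k : ℕ), kod X (K X) = k → 1 ≤ k → ∃ (X' : Var) (_ : Bir X' X),
    ∀ A ∈ eff X', ∀ B ∈ psef X', ∃ (G : Var) (res : Div X' →+ Div G), dim G + k = dim X ∧
      kod G (K G) = 0 ∧ res (K X') = K G ∧ res A ∈ eff G ∧ res B ∈ psef G ∧
      kod X' A ≤ kod G (res A) + k

attribute [instance] Theory.grp Theory.mod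

/-- The Campana-Peternell conjecture: `K_X ~ A + B` with `A` effective and `B` pseudo-effective
implies `κ(X) ≥ κ(A)`. -/
def Q1 (T : Theory) : Prop :=
  ∀ (X : T.Var), ∀ A ∈ T.eff X, ∀ B ∈ T.psef X, T.K X = A + B → T.kod X A ≤ T.kod X (T.K X)

/-- The weak form with parameters `I` and `ω`: if `dim X ∈ I`, `f : X → (P¹)^k` is a surjective
morphism with `k ≥ 1` and `k ≥ ω(dim X)`, `F = f^*O(1,...,1)`, and `K_X - cF` is pseudo-effective
for some rational `c > 0`, then `κ(X) ≥ 1`. -/
def Weak (T : Theory) (I : Set ℕ) (ω : ℕ → ℝ) : Prop :=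
  ∀ (X : T.Var), T.dim X ∈ I → ∀ k : ℕ, 1 ≤ k → ω (T.dim X) ≤ k → ∀ F ∈ T.lines X k,
    ∀ c : ℚ, 0 < c → T.K X - c • F ∈ T.psef X → 1 ≤ T.kod X (T.K X)

/-- Products of `s + 1` copies of `X` and `b` copies of the elliptic curve. -/
theorem powers (T : Theory) (X : T.Var) (F : T.Div X) (hF : F ∈ T.lines X 1) (c : ℚ)
    (hB : T.K X - c • F ∈ T.psef X) (s b : ℕ) :
    ∃ (Z : T.Var) (F' : T.Div Z), T.dim Z = (s + 1) * T.dim X + b ∧ F' ∈ T.lines Z (s + 1) ∧
      T.K Z - c • F' ∈ T.psef Z ∧ T.kod Z (T.K Z) = (s + 1) • T.kod X (T.K X) := by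
  have key : ∀ (Z Y : T.Var) (F' : T.Div Z) (F'' : T.Div Y), T.K Z - c • F' ∈ T.psef Z →
      T.K Y - c • F'' ∈ T.psef Y →
      T.K (T.prod Z Y) - c • T.box F' F'' ∈ T.psef (T.prod Z Y) := by
    intro Z Y F' F'' h1 h2
    have h5 : T.K (T.prod Z Y) - c • T.box F' F'' = T.box (T.K Z - c • F') (T.K Y - c • F'') := by
      rw [sub_eq_iff_eq_add, ← T.box_smul, ← T.box_add, T.K_prod]
      simp
    rw [h5]
    exact T.psef_box _ _ h1 h2
  induction s with
  | zero =>
    induction b with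
    | zero => exact ⟨X, F, by simp, by simpa using hF, hB, by simp⟩
    | succ b ih =>
      obtain ⟨Z, F', h1, h2, h3, h4⟩ := ih
      refine ⟨T.prod Z T.E, T.box F' 0, ?_, T.lines_box _ 0 F' h2 0 (T.zero_lines _),
        key _ _ _ _ h3 ?_, ?_⟩
      · rw [T.dim_prod, h1, T.dim_E]; ring
      · rw [T.K_E, smul_zero, sub_zero]
        exact T.eff_psef _ (T.zero_eff _)
      · rw [T.K_prod, T.kod_box, T.K_E, T.kod_E, add_zero, h4]
  | succ s ih =>
    obtain ⟨Z, F', h1, h2, h3, h4⟩ := ih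
    refine ⟨T.prod Z X, T.box F' F, ?_, T.lines_box _ _ F' h2 F hF, key _ _ _ _ h3 hB, ?_⟩
    · rw [T.dim_prod, h1]; ring
    · rw [T.K_prod, T.kod_box, h4, succ_nsmul _ (s + 1)]

theorem nat_of_nonneg {x : WithBot ℕ} (h : 0 ≤ x) : ∃ a : ℕ, x = a := by
  induction x using WithBot.recBotCoe with
  | bot => exact absurd (le_bot_iff.1 h) (by simp)
  | coe a => exact ⟨a, rfl⟩

theorem nonneg_of_one_le_add {x : WithBot ℕ} (h : 1 ≤ x + 1) : 0 ≤ x := by
  induction x using WithBot.recBotCoe with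
  | bot => exact absurd h (by simp)
  | coe a => exact WithBot.coe_le_coe.2 (Nat.zero_le a)

theorem one_le_of_nsmul {s : ℕ} {x : WithBot ℕ} (h : 1 ≤ (s + 1) • x) : 1 ≤ x := by
  induction x using WithBot.recBotCoe with
  | bot =>
    exfalso
    rw [succ_nsmul, WithBot.add_bot] at h
    exact absurd h (by simp)
  | coe k =>
    rcases Nat.eq_zero_or_pos k with h0 | h1
    · subst h0
      exfalso
      have h2 : (s + 1) • (((0 : ℕ) : WithBot ℕ)) = 0 := by
        rw [Nat.cast_zero, nsmul_zero]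
      have h3 : (1 : WithBot ℕ) ≤ 0 := h2 ▸ h
      exact absurd h3 (by decide)
    · exact WithBot.coe_le_coe.2 h1

/-- The basic case: `κ(A) ≥ 1` implies `κ(X) ≥ 1`. -/
def Basic (T : Theory) : Prop :=
  ∀ (X : T.Var), ∀ A ∈ T.eff X, ∀ B ∈ T.psef X, T.K X = A + B → 1 ≤ T.kod X A →
    1 ≤ T.kod X (T.K X)

theorem kod_nat (T : Theory) (X : T.Var) (A : T.Div X) (h : 0 ≤ T.kod X A) :
    ∃ a : ℕ, T.kod X A = a :=
  nat_of_nonneg h

/-- The basic case implies the whole conjecture: induction on the dimension through the Iitaka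
fibration. -/
theorem q1_of_basic (T : Theory) (h : Basic T) : Q1 T := by
  have key : ∀ n : ℕ, ∀ (X : T.Var), T.dim X = n → ∀ A ∈ T.eff X, ∀ B ∈ T.psef X,
      T.K X = A + B → T.kod X A ≤ T.kod X (T.K X) := by
    intro n
    induction n using Nat.strong_induction_on with
    | _ n ih =>
      intro X hX A hA B hB hK
      obtain ⟨a, ha⟩ := kod_nat T X A (T.kod_eff X A hA)
      rcases Nat.eq_zero_or_pos a with h0 | hpos
      · -- nonvanishing, by a product with a curve of genus 2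
        subst h0
        have h1 := h (T.prod X T.C) (T.box A (T.K T.C)) (T.eff_box _ _ hA T.K_C_eff)
          (T.box B 0) (T.psef_box _ _ hB (T.eff_psef _ (T.zero_eff _)))
          (by rw [T.K_prod, ← T.box_add, hK, add_zero]) (by rw [T.kod_box, ha, T.kod_C]; simp)
        rw [T.K_prod, T.kod_box, T.kod_C] at h1
        rw [ha]
        exact_mod_cast nonneg_of_one_le_add h1
      · -- the Iitaka fibration
        have h1 : 1 ≤ T.kod X (T.K X) := h X A hA B hB hK (by rw [ha]; exact_mod_cast hpos)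
        obtain ⟨k, hk⟩ := kod_nat T X (T.K X) (le_trans (by exact_mod_cast Nat.zero_le 1) h1)
        have hk1 : 1 ≤ k := by
          rw [hk] at h1
          exact_mod_cast h1
        obtain ⟨X', μ, hμ⟩ := T.iitaka X k hk hk1
        obtain ⟨R, hR, hKR⟩ := T.K_pull μ
        have hB' : T.pull μ B + R ∈ T.psef X' :=
          T.psef_add _ _ (T.pull_psef μ B hB) _ (T.eff_psef _ hR)
        obtain ⟨G, res, g1, g2, g3, g4, g5, g6⟩ := hμ (T.pull μ A) (T.pull_eff μ A hA) _ hB'
        have hG := ih (T.dim G) (by omega) G rfl _ g4 _ g5 (by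
          rw [← map_add, ← g3, hKR, hK, map_add (T.pull μ), add_assoc])
        rw [g2] at hG
        rw [T.kod_pull] at g6
        calc T.kod X A ≤ T.kod G (res (T.pull μ A)) + k := g6
          _ ≤ 0 + k := by gcongr
          _ = T.kod X (T.K X) := by rw [zero_add, hk]
  intro X A hA B hB hK
  exact key _ X rfl A hA B hB hK

theorem basic_of_weak (T : Theory) (I : Set ℕ) (hI : ∀ n : ℕ, ∃ N ∈ I, n ≤ N) (ω : ℕ → ℝ)
    (hω : Filter.Tendsto (fun n : ℕ => ω n / n) Filter.atTop (nhds 0)) (h : Weak T I ω) :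
    Basic T := by
  intro X₀ A hA B hB hK h1A
  -- the pencil
  obtain ⟨X, μ, F, hF, c, hc, R, hR, hpull⟩ := T.pencil X₀ A hA h1A
  obtain ⟨S, hS, hKS⟩ := T.K_pull μ
  have hps : T.K X - c • F ∈ T.psef X := by
    have : T.K X - c • F = T.pull μ B + (R + S) := by
      rw [hKS, hK, map_add, hpull]
      abel
    rw [this]
    exact T.psef_add _ _ (T.pull_psef μ B hB) _
      (T.psef_add _ _ (T.eff_psef _ hR) _ (T.eff_psef _ hS))
  rw [← T.kod_bir μ]
  have hd1 : 1 ≤ T.dim X := by
    have h1 := T.kod_le X (c • F)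
    rw [T.kod_lines X 1 F hF c hc] at h1
    exact_mod_cast h1
  have hdr : (0 : ℝ) < T.dim X := by exact_mod_cast hd1
  -- choose a dimension
  have hev : ∀ᶠ n : ℕ in Filter.atTop, ω n / n < 1 / (2 * T.dim X) :=
    hω.eventually (gt_mem_nhds (by positivity))
  obtain ⟨n₀, hn₀⟩ := Filter.eventually_atTop.1 hev
  obtain ⟨N, hN, hNn⟩ := hI (n₀ + 2 * T.dim X)
  have hNω : ω N < N / (2 * T.dim X) := by
    have h3 := hn₀ N (by omega)
    have hNpos : (0 : ℝ) < N := by
      have : 0 < N := by omega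
      exact_mod_cast this
    rw [div_lt_iff₀ hNpos] at h3
    calc ω N < 1 / (2 * T.dim X) * N := h3
      _ = N / (2 * T.dim X) := by ring
  -- `N = (s + 1) * dim X + b`
  obtain ⟨s, hs⟩ : ∃ s, N / T.dim X = s + 1 := by
    have : 1 ≤ N / T.dim X := (Nat.one_le_div_iff (by omega)).2 (by omega)
    exact ⟨N / T.dim X - 1, by omega⟩
  have hmod := Nat.div_add_mod N (T.dim X)
  have hlt := Nat.mod_lt N (show T.dim X > 0 by omega)
  rw [hs] at hmod
  obtain ⟨Z, F', z1, z2, z3, z4⟩ := powers T X F hF c hps s (N % T.dim X)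
  have hdimZ : T.dim Z = N := by
    rw [z1, mul_comm]
    exact hmod
  have hbound : ω N ≤ ((s + 1 : ℕ) : ℝ) := by
    have h4 : (N : ℝ) ≤ 2 * ((s + 1 : ℕ) : ℝ) * T.dim X := by
      have h5 : N ≤ 2 * (s + 1) * T.dim X := by nlinarith
      exact_mod_cast h5
    have h6 : (N : ℝ) / (2 * T.dim X) ≤ ((s + 1 : ℕ) : ℝ) := by
      rw [div_le_iff₀ (by positivity)]
      linarith
    linarith
  have h8 := h Z (by rw [hdimZ]; exact hN) (s + 1) (by omega) (by rw [hdimZ]; exact hbound)
    F' z2 c hc z3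
  rw [z4] at h8
  exact one_le_of_nsmul h8

/-- **Theorem.**  For every unbounded set `I` of dimensions and every function `ω` with
`ω(n) = o(n)`, the Campana-Peternell conjecture is equivalent to the following statement: if
`dim X ∈ I`, `F = f^*O(1,...,1)` for a surjective morphism `f : X → (P¹)^k` with
`k ≥ max(1, ω(dim X))`, and `K_X - cF` is pseudo-effective for some rational `c > 0`, then
`κ(X) ≥ 1`. -/
theorem result (T : Theory) (I : Set ℕ) (hI : ∀ n : ℕ, ∃ N ∈ I, n ≤ N) (ω : ℕ → ℝ)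
    (hω : Filter.Tendsto (fun n : ℕ => ω n / n) Filter.atTop (nhds 0)) :
    Q1 T ↔ Weak T I ω := by
  refine ⟨?_, fun h => q1_of_basic T (basic_of_weak T I hI ω hω h)⟩
  intro h X _ k hk1 _ F hF c hc hps
  have h1 := h X (c • F) (T.lines_eff X k F hF c hc) _ hps (by abel)
  rw [T.kod_lines X k F hF c hc] at h1
  exact le_trans (by exact_mod_cast hk1) h1

end Pool.Agent.Results.MP_370cf3_ag.FibrationReduction
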